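import Pool.Agent.W680.WH.Stm

set_option autoImplicit false

open Filter

namespace Pool.Agent.W154.WH.OM

open Pool.Agent.W680.WH

/-- the weights on natural numbers -/
noncomputable def pn (n : ℕ) : ℝ := ∏ i ∈ Finset.range n, ((4 * (i : ℝ) + 3) / (4 * (i : ℝ) + 1))

lemma om_eq (n : ℤ) : om n = pn n.natAbs := rfl

lemma pn_pos (n : ℕ) : 0 < pn n := Finset.prod_pos (fun i _ => by positivity)

lemma pn_succ (n : ℕ) : pn (n + 1) = pn n * ((4 * (n : ℝ) + 3) / (4 * (n : ℝ) + 1)) := by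
  unfold pn; rw [Finset.prod_range_succ]

lemma pn_mono : Monotone pn := by
  refine monotone_nat_of_le_succ (fun n => ?_)
  rw [pn_succ]
  have h : 1 ≤ (4 * (n : ℝ) + 3) / (4 * (n : ℝ) + 1) := by
    rw [le_div_iff₀ (by positivity)]; linarith
  nlinarith [pn_pos n]

lemma pn_zero : pn 0 = 1 := by simp [pn]

lemma pn_add (a b : ℕ) : pn (a + b) ≤ pn a * pn b := by
  unfold pn
  rw [Finset.prod_range_add]
  refine mul_le_mul_of_nonneg_left ?_ (le_of_lt (pn_pos a))
  refine Finset.prod_le_prod (fun i _ => by positivity) (fun i _ => ?_)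
  push_cast
  rw [div_le_div_iff₀ (by positivity) (by positivity)]
  have ha : (0 : ℝ) ≤ a := Nat.cast_nonneg a
  nlinarith

lemma pn_sq (n : ℕ) : 4 * (n : ℝ) + 1 ≤ pn n ^ 2 := by
  induction n with
  | zero => simp [pn_zero]
  | succ n ih =>
    rw [pn_succ, mul_pow]
    have h1 : (0 : ℝ) < 4 * (n : ℝ) + 1 := by positivity
    have h2 : (4 * (n : ℝ) + 1) * ((4 * (n : ℝ) + 3) / (4 * (n : ℝ) + 1)) ^ 2
        ≤ pn n ^ 2 * ((4 * (n : ℝ) + 3) / (4 * (n : ℝ) + 1)) ^ 2 :=
      mul_le_mul_of_nonneg_right ih (by positivity)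
    refine le_trans ?_ h2
    have h3 : (4 * (n : ℝ) + 1) * ((4 * (n : ℝ) + 3) / (4 * (n : ℝ) + 1)) ^ 2
        = (4 * (n : ℝ) + 3) ^ 2 / (4 * (n : ℝ) + 1) := by
      field_simp
    rw [h3, le_div_iff₀ h1]
    push_cast
    nlinarith

lemma fac_tendsto (k : ℤ) :
    Tendsto (fun N : ℕ => (4 * (((k + N : ℤ)) : ℝ) + 3) / (4 * ((k + N : ℤ) : ℝ) + 1)) atTop
      (nhds 1) := by
  have h1 : Tendsto (fun N : ℕ => 4 * ((k + N : ℤ) : ℝ) + 1) atTop atTop := by
    have h2 : Tendsto (fun N : ℕ => (N : ℝ)) atTop atTop := tendsto_natCast_atTop_atTop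
    have h3 : (fun N : ℕ => 4 * ((k + N : ℤ) : ℝ) + 1) = fun N : ℕ => (4 * (k : ℝ) + 1) + 4 * (N : ℝ) := by
      funext N; push_cast; ring
    rw [h3]
    exact tendsto_atTop_add_const_left _ _ (h2.const_mul_atTop (by norm_num))
  have h4 : Tendsto (fun N : ℕ => 1 + 2 * (4 * ((k + N : ℤ) : ℝ) + 1)⁻¹) atTop (nhds (1 + 2 * 0)) :=
    tendsto_const_nhds.add ((tendsto_inv_atTop_zero.comp h1).const_mul 2)
  rw [mul_zero, add_zero] at h4
  refine h4.congr (fun N => ?_)
  have h5 : (4 * ((k + N : ℤ) : ℝ) + 1) ≠ 0 := by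
    intro h
    have h6 : (4 * (k + N) + 1 : ℤ) = 0 := by exact_mod_cast h
    omega
  field_simp
  ring

theorem om_stm : S_OM := by
  refine ⟨fun n => ?_, fun m n h => ?_, fun m n => ?_, ?_, ?_⟩
  · rw [om_eq, ← pn_zero]; exact pn_mono (Nat.zero_le _)
  · rw [om_eq, om_eq]; exact pn_mono h
  · rw [om_eq, om_eq, om_eq]
    exact (pn_mono (Int.natAbs_add_le m n)).trans (pn_add _ _)
  · have h1 : Tendsto (fun N : ℕ => Real.sqrt (4 * (N : ℝ) + 1)) atTop atTop := by
      refine Real.tendsto_sqrt_atTop.comp ?_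
      exact tendsto_atTop_add_const_right _ _
        (tendsto_natCast_atTop_atTop.const_mul_atTop (by norm_num))
    refine tendsto_atTop_mono (fun N => ?_) h1
    rw [om_eq, Int.natAbs_natCast]
    exact Real.sqrt_le_iff.2 ⟨(pn_pos N).le, pn_sq N⟩
  · intro k
    induction k using Int.induction_on with
    | zero =>
      refine (tendsto_const_nhds (x := (1 : ℝ))).congr (fun N => ?_)
      rw [zero_add, div_self (om_pos _).ne']
    | succ i ih =>
      have h := ih.mul (fac_tendsto i)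
      rw [mul_one] at h
      refine h.congr (fun N => ?_)
      have h1 : ((i : ℤ) + 1 + (N : ℤ)) = ((i : ℤ) + N) + 1 := by ring
      rw [h1, om_succ]
      ring
    | pred i ih =>
      have h := ih.div (fac_tendsto (-(i : ℤ) - 1)) one_ne_zero
      rw [div_one] at h
      refine h.congr (fun N => ?_)
      have h1 : (-(i : ℤ) + (N : ℤ)) = (-(i : ℤ) - 1 + N) + 1 := by ring
      change om (-(i : ℤ) + (N : ℤ)) / om N / ((4 * ((-(i : ℤ) - 1 + N : ℤ) : ℝ) + 3) /
        (4 * ((-(i : ℤ) - 1 + N : ℤ) : ℝ) + 1)) = om (-(i : ℤ) - 1 + N) / om N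
      rw [h1, om_succ]
      set m : ℤ := -(i : ℤ) - 1 + N with hm
      have h2 : (4 * (m : ℝ) + 3) ≠ 0 := by
        intro h
        have h6 : (4 * m + 3 : ℤ) = 0 := by exact_mod_cast h
        omega
      have h3 : (4 * (m : ℝ) + 1) ≠ 0 := by
        intro h
        have h6 : (4 * m + 1 : ℤ) = 0 := by exact_mod_cast h
        omega
      have h4 := (om_pos (N : ℤ)).ne'
      field_simp

end Pool.Agent.W154.WH.OM
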